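import Mathlib

/-!
Covers of almost minimal incidence in a linear space: the basic counts.
-/

set_option autoImplicit false

namespace Pool.Agent.Work.MP_d899bc_co.Half

open Classical in
/-- number of points of `X` on a line -/
noncomputable def kk {P L : Type} (I : P → L → Prop) (X : Finset P) (ℓ : L) : ℕ :=
  (X.filter fun C => I C ℓ).card

open Classical in
/-- number of lines of `S` through a point -/
noncomputable def rr {P L : Type} (I : P → L → Prop) (S : Finset L) (C : P) : ℕ :=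
  (S.filter fun ℓ => I C ℓ).card

/-- `S` is a family of at most `n` lines that covers exactly `X` minus `A`. -/
structure Cov {P L : Type} (I : P → L → Prop) (X : Finset P) (n : ℕ) (A : P) (S : Finset L) :
    Prop where
  hA : A ∈ X
  card : S.card ≤ n
  miss : ∀ ℓ ∈ S, ¬ I A ℓ
  cov : ∀ C ∈ X, C ≠ A → ∃ ℓ ∈ S, I C ℓ

variable {P L : Type} {I : P → L → Prop} {X : Finset P} {n : ℕ} {A : P} {S : Finset L}

theorem sum_kk (I : P → L → Prop) (X : Finset P) (S : Finset L) :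
    ∑ ℓ ∈ S, kk I X ℓ = ∑ C ∈ X, rr I S C := by
  classical
  simp only [kk, rr, Finset.card_filter]
  exact Finset.sum_comm

theorem Cov.rr_self (h : Cov I X n A S) : rr I S A = 0 := by
  classical
  rw [rr, Finset.card_eq_zero, Finset.filter_eq_empty_iff]
  exact fun ℓ hℓ => h.miss ℓ hℓ

theorem Cov.rr_pos (h : Cov I X n A S) {C : P} (hC : C ∈ X) (hne : C ≠ A) : 1 ≤ rr I S C := by
  classical
  obtain ⟨ℓ, hℓ, hI⟩ := h.cov C hC hne
  exact Finset.card_pos.mpr ⟨ℓ, Finset.mem_filter.mpr ⟨hℓ, hI⟩⟩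

open Classical in
/-- total excess of a cover -/
noncomputable def exc {P L : Type} (I : P → L → Prop) (X : Finset P) (A : P) (S : Finset L) : ℕ :=
  ∑ C ∈ X.erase A, (rr I S C - 1)

theorem Cov.sum (h : Cov I X n A S) : ∑ ℓ ∈ S, kk I X ℓ + 1 = exc I X A S + X.card := by
  classical
  rw [sum_kk, ← Finset.add_sum_erase X _ h.hA, h.rr_self, zero_add, exc,
    ← Finset.card_erase_add_one h.hA, ← add_assoc, Finset.card_eq_sum_ones, ← Finset.sum_add_distrib]
  congr 1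
  refine Finset.sum_congr rfl fun C hC => ?_
  have := h.rr_pos (Finset.mem_erase.mp hC).2 (Finset.mem_erase.mp hC).1
  omega

open Classical in
/-- The poor lines of a cover and the excess are few, if few lines of the cover are very rich. -/
theorem Cov.poor (h : Cov I X n A S) (hn : 1 ≤ n) (hX : X.card = (n + 2).choose 2)
    (hmax : ∀ ℓ, kk I X ℓ ≤ n + 1) {δ : ℝ} (hδ : 0 < δ) (hδ1 : δ ≤ 1)
    (hfew : ((S.filter fun ℓ => (1 / 2 + δ) * n ≤ (kk I X ℓ : ℝ)).card : ℝ) ≤ δ * n) :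
    ((S.filter fun ℓ => 4 * kk I X ℓ < n).card : ℝ) + 2 * (n - S.card) ≤ 8 * δ * n ∧
      (exc I X A S : ℝ) ≤ 2 * δ * n ^ 2 := by
  have hn0 : (1 : ℝ) ≤ n := by exact_mod_cast hn
  set h1 := (S.filter fun ℓ => (1 / 2 + δ) * n ≤ (kk I X ℓ : ℝ)).card with hh1
  set p := (S.filter fun ℓ => 4 * kk I X ℓ < n).card with hp
  have hsum : (∑ ℓ ∈ S, (kk I X ℓ : ℝ)) + 1 = exc I X A S + X.card := by
    exact_mod_cast h.sum
  have hXr : (X.card : ℝ) = (n + 2) * (n + 1) / 2 := by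
    rw [hX, Nat.cast_choose_two]
    push_cast
    ring
  have hpt : ∀ ℓ ∈ S, (kk I X ℓ : ℝ) ≤ (1 / 2 + δ) * n +
      (if (1 / 2 + δ) * n ≤ (kk I X ℓ : ℝ) then ((n : ℝ) + 1) else 0) -
      (if 4 * kk I X ℓ < n then (n : ℝ) / 4 else 0) := by
    intro ℓ _
    have hm : (kk I X ℓ : ℝ) ≤ n + 1 := by exact_mod_cast hmax ℓ
    have hpos : 0 ≤ δ * n := by positivity
    split_ifs with ha hb hb
    · have hb' : (4 : ℝ) * kk I X ℓ < n := by exact_mod_cast hb
      nlinarith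
    · nlinarith
    · have hb' : (4 : ℝ) * kk I X ℓ < n := by exact_mod_cast hb
      nlinarith
    · push Not at ha
      linarith
  have hs2 := Finset.sum_le_sum hpt
  rw [Finset.sum_sub_distrib, Finset.sum_add_distrib, Finset.sum_const, ← Finset.sum_filter,
    ← Finset.sum_filter, Finset.sum_const, Finset.sum_const, nsmul_eq_mul, nsmul_eq_mul,
    nsmul_eq_mul, ← hh1, ← hp] at hs2
  have he0 : (0 : ℝ) ≤ exc I X A S := Nat.cast_nonneg _
  have hp0 : (0 : ℝ) ≤ p := Nat.cast_nonneg _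
  have hSn : (S.card : ℝ) ≤ n := by exact_mod_cast h.card
  have key : (exc I X A S : ℝ) + (p + 2 * (n - S.card)) * (n / 4) ≤ 2 * δ * n ^ 2 := by
    have h2 : (h1 : ℝ) * (n + 1) ≤ δ * n * (n + 1) := by gcongr
    have h3 : δ * n ≤ n := by nlinarith
    have h4 : 0 ≤ (n - S.card : ℝ) * (δ * n) := by
      apply mul_nonneg <;> [linarith; positivity]
    nlinarith
  have hq0 : (0 : ℝ) ≤ p + 2 * (n - S.card) := by linarith
  constructor
  · have h3 : ((p : ℝ) + 2 * (n - S.card)) * (n / 4) ≤ 2 * δ * n ^ 2 := by linarith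
    have h4 : ((p : ℝ) + 2 * (n - S.card)) * n ≤ (8 * δ * n) * n := by nlinarith
    exact le_of_mul_le_mul_right h4 (by linarith)
  · have : (0 : ℝ) ≤ (p + 2 * (n - S.card)) * (n / 4) := by positivity
    linarith

/-- two different lines have at most one common point -/
def Linear (I : P → L → Prop) : Prop :=
  ∀ (ℓ ℓ' : L) (C C' : P), C ≠ C' → I C ℓ → I C' ℓ → I C ℓ' → I C' ℓ' → ℓ = ℓ'

theorem sum_offDiag (hl : Linear I) (X : Finset P) (𝓛 : Finset L) :
    ∑ C ∈ X, rr I 𝓛 C * (rr I 𝓛 C - 1) ≤ 𝓛.card ^ 2 := by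
  classical
  have h1 : ∀ C ∈ X, rr I 𝓛 C * (rr I 𝓛 C - 1) =
      ((𝓛.offDiag).filter fun p => I C p.1 ∧ I C p.2).card := by
    intro C _
    rw [rr, Nat.mul_sub, mul_one, ← Finset.offDiag_card]
    congr 1
    ext p
    simp only [Finset.mem_offDiag, Finset.mem_filter]
    tauto
  rw [Finset.sum_congr rfl h1]
  simp only [Finset.card_filter]
  rw [Finset.sum_comm]
  calc ∑ p ∈ 𝓛.offDiag, ∑ C ∈ X, (if I C p.1 ∧ I C p.2 then 1 else 0)
      ≤ ∑ p ∈ 𝓛.offDiag, 1 := by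
        refine Finset.sum_le_sum fun p hp => ?_
        rw [← Finset.card_filter]
        apply Finset.card_le_one.mpr
        intro C hC C' hC'
        obtain ⟨-, hC1, hC2⟩ := Finset.mem_filter.mp hC
        obtain ⟨-, hC3, hC4⟩ := Finset.mem_filter.mp hC'
        by_contra hne
        exact (Finset.mem_offDiag.mp hp).2.2 (hl p.1 p.2 C C' hne hC1 hC3 hC2 hC4)
    _ = 𝓛.card * 𝓛.card - 𝓛.card := by rw [Finset.sum_const, smul_eq_mul, mul_one,
          Finset.offDiag_card]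
    _ ≤ 𝓛.card ^ 2 := by rw [sq]; exact Nat.sub_le _ _

open Classical in
/-- number of points of `X` on `ℓ` that lie on more than `D` lines of `𝓛` -/
noncomputable def multi {P L : Type} (I : P → L → Prop) (X : Finset P) (𝓛 : Finset L) (D : ℕ)
    (ℓ : L) : ℕ := (X.filter fun C => I C ℓ ∧ D < rr I 𝓛 C).card

open Classical in
/-- the lines with many points of high multiplicity are few -/
theorem bad_lines (hl : Linear I) (X : Finset P) (𝓛 : Finset L) (D n : ℕ) :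
    (𝓛.filter fun ℓ => n < 100 * multi I X 𝓛 D ℓ).card * n * D ≤ 100 * 𝓛.card ^ 2 := by
  have h1 : (𝓛.filter fun ℓ => n < 100 * multi I X 𝓛 D ℓ).card * n ≤
      100 * ∑ ℓ ∈ 𝓛, multi I X 𝓛 D ℓ := by
    rw [← smul_eq_mul, ← Finset.sum_const, Finset.mul_sum]
    calc ∑ _ℓ ∈ 𝓛.filter (fun ℓ => n < 100 * multi I X 𝓛 D ℓ), n
        ≤ ∑ ℓ ∈ 𝓛.filter (fun ℓ => n < 100 * multi I X 𝓛 D ℓ), 100 * multi I X 𝓛 D ℓ :=
          Finset.sum_le_sum fun ℓ hℓ => (Finset.mem_filter.mp hℓ).2.le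
      _ ≤ _ := Finset.sum_le_sum_of_subset (Finset.filter_subset _ _)
  have h2 : ∑ ℓ ∈ 𝓛, multi I X 𝓛 D ℓ = ∑ C ∈ X.filter (fun C => D < rr I 𝓛 C), rr I 𝓛 C := by
    simp only [multi, Finset.card_filter]
    rw [Finset.sum_comm, Finset.sum_filter]
    refine Finset.sum_congr rfl fun C _ => ?_
    by_cases h : D < rr I 𝓛 C
    · simp only [h, and_true, if_true]
      rw [rr, Finset.card_filter]
    · simp [h]
  have h3 : (∑ C ∈ X.filter (fun C => D < rr I 𝓛 C), rr I 𝓛 C) * D ≤ 𝓛.card ^ 2 := by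
    refine le_trans ?_ (sum_offDiag hl X 𝓛)
    rw [Finset.sum_mul]
    calc ∑ C ∈ X.filter (fun C => D < rr I 𝓛 C), rr I 𝓛 C * D
        ≤ ∑ C ∈ X.filter (fun C => D < rr I 𝓛 C), rr I 𝓛 C * (rr I 𝓛 C - 1) := by
          refine Finset.sum_le_sum fun C hC => Nat.mul_le_mul_left _ ?_
          have := (Finset.mem_filter.mp hC).2
          omega
      _ ≤ _ := Finset.sum_le_sum_of_subset (Finset.filter_subset _ _)
  calc _ ≤ (100 * ∑ ℓ ∈ 𝓛, multi I X 𝓛 D ℓ) * D := Nat.mul_le_mul_right _ h1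
    _ = 100 * ((∑ C ∈ X.filter (fun C => D < rr I 𝓛 C), rr I 𝓛 C) * D) := by rw [h2]; ring
    _ ≤ _ := Nat.mul_le_mul_left _ h3

/-- `ℓ` and `ℓ'` are different and meet in a point of `X` of multiplicity at most `D` in `𝓛` -/
def WW {P L : Type} (I : P → L → Prop) (X : Finset P) (𝓛 : Finset L) (D : ℕ) (ℓ ℓ' : L) : Prop :=
  ℓ ≠ ℓ' ∧ ∃ C ∈ X, rr I 𝓛 C ≤ D ∧ I C ℓ ∧ I C ℓ'

open Classical in
/-- (4a): a line outside the cover meets many lines of the cover in points of low multiplicity -/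
theorem Cov.many (hl : Linear I) (h : Cov I X n A S) (𝓛 : Finset L) (D : ℕ) {ℓ : L}
    (hℓ : ℓ ∉ S) :
    kk I X ℓ ≤ multi I X 𝓛 D ℓ + 1 + (S.filter fun ℓ' => ℓ' ∉ 𝓛).card +
      ((S.filter fun ℓ' => ℓ' ∈ 𝓛).filter fun ℓ' => WW I X 𝓛 D ℓ ℓ').card := by
  set Q := X.filter fun C => C ≠ A ∧ I C ℓ ∧ rr I 𝓛 C ≤ D with hQ
  have h1 : kk I X ℓ ≤ multi I X 𝓛 D ℓ + 1 + Q.card := by
    have : (X.filter fun C => I C ℓ) ⊆ ((X.filter fun C => I C ℓ ∧ D < rr I 𝓛 C) ∪ {A}) ∪ Q := by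
      intro C hC
      obtain ⟨hC1, hC2⟩ := Finset.mem_filter.mp hC
      simp only [hQ, Finset.mem_union, Finset.mem_filter, Finset.mem_singleton]
      by_cases h1 : C = A
      · exact Or.inl (Or.inr h1)
      · by_cases h2 : rr I 𝓛 C ≤ D
        · exact Or.inr ⟨hC1, h1, hC2, h2⟩
        · exact Or.inl (Or.inl ⟨hC1, hC2, not_le.mp h2⟩)
    calc kk I X ℓ ≤ (((X.filter fun C => I C ℓ ∧ D < rr I 𝓛 C) ∪ {A}) ∪ Q).card :=
          Finset.card_le_card this
      _ ≤ ((X.filter fun C => I C ℓ ∧ D < rr I 𝓛 C) ∪ {A}).card + Q.card :=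
          Finset.card_union_le _ _
      _ ≤ _ := by
          gcongr
          exact (Finset.card_union_le _ _).trans (by simp [multi])
  have hex : ∀ C : P, ∃ ℓ', C ∈ Q → ℓ' ∈ S ∧ I C ℓ' := by
    intro C
    by_cases hC : C ∈ Q
    · obtain ⟨hC1, hC2, -⟩ := Finset.mem_filter.mp hC
      obtain ⟨ℓ', h1, h2⟩ := h.cov C hC1 hC2
      exact ⟨ℓ', fun _ => ⟨h1, h2⟩⟩
    · exact ⟨ℓ, fun h => absurd h hC⟩
  choose g hg using hex
  have h2 : Q.card ≤ (S.filter fun ℓ' => WW I X 𝓛 D ℓ ℓ').card := by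
    apply Finset.card_le_card_of_injOn g
    · intro C hC
      obtain ⟨hC1, hC2, hC3, hC4⟩ := Finset.mem_filter.mp hC
      obtain ⟨g1, g2⟩ := hg C hC
      refine Finset.mem_filter.mpr ⟨g1, ?_, C, hC1, hC4, hC3, g2⟩
      rintro rfl
      exact hℓ g1
    · intro C hC C' hC' hgg
      obtain ⟨hC1, hC2, hC3, hC4⟩ := Finset.mem_filter.mp hC
      obtain ⟨hC1', hC2', hC3', hC4'⟩ := Finset.mem_filter.mp hC'
      obtain ⟨g1, g2⟩ := hg C hC
      obtain ⟨g1', g2'⟩ := hg C' hC'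
      by_contra hne
      rw [← hgg] at g2'
      have := hl ℓ (g C) C C' hne hC3 hC3' g2 g2'
      rw [this] at hℓ
      exact hℓ g1
  have h3 : (S.filter fun ℓ' => WW I X 𝓛 D ℓ ℓ').card ≤ (S.filter fun ℓ' => ℓ' ∉ 𝓛).card +
      ((S.filter fun ℓ' => ℓ' ∈ 𝓛).filter fun ℓ' => WW I X 𝓛 D ℓ ℓ').card := by
    refine (Finset.card_le_card ?_).trans (Finset.card_union_le _ _)
    intro ℓ' hℓ'
    obtain ⟨a1, a2⟩ := Finset.mem_filter.mp hℓ'
    simp only [Finset.mem_union, Finset.mem_filter]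
    by_cases hm : ℓ' ∈ 𝓛
    · exact Or.inr ⟨⟨a1, hm⟩, a2⟩
    · exact Or.inl ⟨a1, hm⟩
  omega

open Classical in
/-- (4b): few pairs of lines of the cover meet in points of low multiplicity -/
theorem Cov.few (h : Cov I X n A S) (𝓛 : Finset L) (D : ℕ) :
    ∑ ℓ ∈ S.filter (fun ℓ => ℓ ∈ 𝓛),
      ((S.filter fun ℓ' => ℓ' ∈ 𝓛).filter fun ℓ' => WW I X 𝓛 D ℓ ℓ').card ≤
      D * exc I X A S := by
  set S' := S.filter fun ℓ => ℓ ∈ 𝓛 with hS'
  have hsub : ∀ C, rr I S' C ≤ rr I S C := by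
    intro C
    apply Finset.card_le_card
    intro ℓ hℓ
    obtain ⟨a, b⟩ := Finset.mem_filter.mp hℓ
    exact Finset.mem_filter.mpr ⟨(Finset.mem_filter.mp a).1, b⟩
  have hsub2 : ∀ C, rr I S' C ≤ rr I 𝓛 C := by
    intro C
    apply Finset.card_le_card
    intro ℓ hℓ
    obtain ⟨a, b⟩ := Finset.mem_filter.mp hℓ
    exact Finset.mem_filter.mpr ⟨(Finset.mem_filter.mp a).2, b⟩
  have h1 : ∑ ℓ ∈ S', (S'.filter fun ℓ' => WW I X 𝓛 D ℓ ℓ').card ≤
      ∑ C ∈ X.filter (fun C => rr I 𝓛 C ≤ D), rr I S' C * (rr I S' C - 1) := by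
    have e1 : ∀ C ∈ X.filter (fun C => rr I 𝓛 C ≤ D), rr I S' C * (rr I S' C - 1) =
        ((S'.offDiag).filter fun p => I C p.1 ∧ I C p.2).card := by
      intro C _
      rw [rr, Nat.mul_sub, mul_one, ← Finset.offDiag_card]
      congr 1
      ext p
      simp only [Finset.mem_offDiag, Finset.mem_filter]
      tauto
    have e2 : ∑ ℓ ∈ S', (S'.filter fun ℓ' => WW I X 𝓛 D ℓ ℓ').card =
        ((S' ×ˢ S').filter fun p => WW I X 𝓛 D p.1 p.2).card := by
      simp only [Finset.card_filter]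
      rw [Finset.sum_product]
    rw [e2, Finset.sum_congr rfl e1]
    refine (Finset.card_le_card ?_).trans (Finset.card_biUnion_le
      (s := X.filter (fun C => rr I 𝓛 C ≤ D))
      (t := fun C => (S'.offDiag).filter fun p => I C p.1 ∧ I C p.2))
    intro p hp
    obtain ⟨hp1, hp2, C, hC, hC1, hC2, hC3⟩ := Finset.mem_filter.mp hp
    obtain ⟨hpa, hpb⟩ := Finset.mem_product.mp hp1
    exact Finset.mem_biUnion.mpr ⟨C, Finset.mem_filter.mpr ⟨hC, hC1⟩,
      Finset.mem_filter.mpr ⟨Finset.mem_offDiag.mpr ⟨hpa, hpb, hp2⟩, hC2, hC3⟩⟩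
  refine h1.trans ?_
  rw [exc, Finset.mul_sum]
  have h2 : ∑ C ∈ X.filter (fun C => rr I 𝓛 C ≤ D), rr I S' C * (rr I S' C - 1) ≤
      ∑ C ∈ (X.filter (fun C => rr I 𝓛 C ≤ D)).erase A, rr I S' C * (rr I S' C - 1) := by
    by_cases hA : A ∈ X.filter (fun C => rr I 𝓛 C ≤ D)
    · rw [← Finset.add_sum_erase _ _ hA]
      have : rr I S' A = 0 := by
        have := hsub A
        rw [h.rr_self] at this
        omega
      simp [this]
    · rw [Finset.erase_eq_of_notMem hA]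
  refine h2.trans ?_
  calc ∑ C ∈ (X.filter (fun C => rr I 𝓛 C ≤ D)).erase A, rr I S' C * (rr I S' C - 1)
      ≤ ∑ C ∈ (X.filter (fun C => rr I 𝓛 C ≤ D)).erase A, D * (rr I S C - 1) := by
        refine Finset.sum_le_sum fun C hC => ?_
        have hC1 := (Finset.mem_filter.mp (Finset.mem_erase.mp hC).2).2
        exact Nat.mul_le_mul ((hsub2 C).trans hC1) (Nat.sub_le_sub_right (hsub C) 1)
    _ ≤ _ := Finset.sum_le_sum_of_subset (Finset.erase_subset_erase _ (Finset.filter_subset _ _))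

end Pool.Agent.Work.MP_d899bc_co.Half
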