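import Pool.Agent.Work.MP_d899bc_co.Half.Final

/-!
The combinatorial core: in a linear space with few rich lines, few nodes have an almost exact
cover by lines with about `n / 2` nodes.
-/

set_option autoImplicit false

namespace Pool.Agent.Work.MP_d899bc_co.Half

open Classical in
theorem core (C : ℕ) (hC : 1 ≤ C) (ε : ℝ) (hε : 0 < ε) :
    ∃ δ : ℝ, 0 < δ ∧ δ ≤ 1 ∧ ∃ n₀ : ℕ, ∀ n, n₀ ≤ n → ∀ {P L : Type} (I : P → L → Prop),
      Linear I → ∀ X : Finset P, X.card = (n + 2).choose 2 → (∀ ℓ, kk I X ℓ ≤ n + 1) →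
      (∀ 𝓛 : Finset L, (∀ ℓ ∈ 𝓛, n ≤ 4 * kk I X ℓ) → 𝓛.card ≤ C * n) →
      ∀ (Y : Finset P) (S : P → Finset L), (∀ A ∈ Y, Cov I X n A (S A)) →
      (∀ A ∈ Y, (((S A).filter fun ℓ => (1 / 2 + δ) * n ≤ (kk I X ℓ : ℝ)).card : ℝ) ≤ δ * n) →
      (Y.card : ℝ) ≤ ε * X.card := by
  have hCr : (1 : ℝ) ≤ C := by exact_mod_cast hC
  -- the number of samples
  obtain ⟨R, hR⟩ := exists_pow_lt_of_lt_one (show (0 : ℝ) < 1 / (200 * C) by positivity)
    (show (4 / 5 : ℝ) < 1 by norm_num)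
  have hR' : (C : ℝ) * (4 / 5) ^ R ≤ 1 / 200 := by
    have : (C : ℝ) * (4 / 5) ^ R ≤ C * (1 / (200 * C)) := by gcongr
    refine this.trans (le_of_eq ?_)
    field_simp
  set D : ℕ := 10000 * C ^ 2 with hD
  set K : ℝ := (2 * C : ℝ) ^ R with hK
  have hK0 : 0 < K := by positivity
  have hK1 : 1 ≤ K := one_le_pow₀ (by linarith)
  have hDr : (D : ℝ) = 10000 * (C : ℝ) ^ 2 := by rw [hD]; push_cast; ring
  have hD0 : (0 : ℝ) < D := by rw [hDr]; positivity
  set δ : ℝ := min (1 / 800) (min (1 / (800 * (R + 1) * D)) (ε / (528 * K))) with hδ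
  have hδ0 : 0 < δ := by
    rw [hδ]
    refine lt_min (by norm_num) (lt_min (by positivity) (by positivity))
  have hδ1 : δ ≤ 1 / 800 := min_le_left _ _
  have hδ2 : δ ≤ 1 / (800 * (R + 1) * D) := (min_le_right _ _).trans (min_le_left _ _)
  have hδ3 : δ ≤ ε / (528 * K) := (min_le_right _ _).trans (min_le_right _ _)
  have hδ2' : δ * (800 * (R + 1) * D) ≤ 1 := by
    rwa [le_div_iff₀ (by positivity)] at hδ2
  have hδ3' : δ * (528 * K) ≤ ε := by
    rwa [le_div_iff₀ (by positivity)] at hδ3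
  refine ⟨δ, hδ0, by linarith, max 34 ⌈8 * K / ε⌉₊, ?_⟩
  intro n hn P L I hl X hX hmax hST Y S hcov hfew
  have hn34 : 34 ≤ n := (le_max_left _ _).trans hn
  have hnK : 8 * K / ε ≤ n := (Nat.le_ceil _).trans (by exact_mod_cast (le_max_right _ _).trans hn)
  have hnr : (34 : ℝ) ≤ n := by exact_mod_cast hn34
  have hn0 : (0 : ℝ) < n := by linarith
  rcases Y.eq_empty_or_nonempty with hY | hY
  · rw [hY]
    simp only [Finset.card_empty, Nat.cast_zero]
    positivity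
  set 𝓛 : Finset L := (Y.biUnion S).filter fun ℓ => n ≤ 4 * kk I X ℓ with h𝓛
  have hM : 𝓛.card ≤ C * n := hST 𝓛 fun ℓ hℓ => (Finset.mem_filter.mp hℓ).2
  have hMr : (𝓛.card : ℝ) ≤ C * n := by exact_mod_cast hM
  set B : Finset L := 𝓛.filter fun ℓ => n < 100 * multi I X 𝓛 D ℓ with hB
  have hBcard : 100 * B.card ≤ n := by
    have h1 := bad_lines hl X 𝓛 D n
    rw [← hB] at h1
    have h2 : B.card * n * D ≤ 100 * (C * n) ^ 2 :=
      h1.trans (Nat.mul_le_mul_left _ (Nat.pow_le_pow_left hM 2))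
    have h3 : (100 * B.card) * (100 * C ^ 2 * n) ≤ n * (100 * C ^ 2 * n) := by
      calc (100 * B.card) * (100 * C ^ 2 * n) = B.card * n * D := by rw [hD]; ring
        _ ≤ 100 * (C * n) ^ 2 := h2
        _ = _ := by ring
    exact Nat.le_of_mul_le_mul_right h3 (by positivity)
  set 𝓛₁ : Finset L := 𝓛.filter fun ℓ => ¬ n < 100 * multi I X 𝓛 D ℓ with h𝓛₁
  have h𝓛₁card : (𝓛₁.card : ℝ) * (4 / 5) ^ R ≤ n / 200 := by
    have h1 : (𝓛₁.card : ℝ) ≤ C * n := by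
      refine le_trans ?_ hMr
      exact_mod_cast Finset.card_le_card (Finset.filter_subset _ _)
    calc (𝓛₁.card : ℝ) * (4 / 5) ^ R ≤ C * n * (4 / 5) ^ R := by gcongr
      _ = (C * (4 / 5) ^ R) * n := by ring
      _ ≤ 1 / 200 * n := by gcongr
      _ = _ := by ring
  set W : L → L → Prop := WW I X 𝓛 D with hW
  -- facts about one cover
  have hpoor' : ∀ A ∈ Y, (((S A).filter fun ℓ => 4 * kk I X ℓ < n).card : ℝ) +
      2 * (n - (S A).card) ≤ 8 * δ * n ∧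
      (exc I X A (S A) : ℝ) ≤ 2 * δ * n ^ 2 := fun A hA =>
    (hcov A hA).poor (by omega) hX hmax hδ0 (by linarith) (hfew A hA)
  have hSn : ∀ A ∈ Y, ((S A).card : ℝ) ≤ n := fun A hA => by exact_mod_cast (hcov A hA).card
  have hpoor : ∀ A ∈ Y, (((S A).filter fun ℓ => 4 * kk I X ℓ < n).card : ℝ) ≤ 8 * δ * n ∧
      (exc I X A (S A) : ℝ) ≤ 2 * δ * n ^ 2 := fun A hA =>
    ⟨by linarith [(hpoor' A hA).1, hSn A hA], (hpoor' A hA).2⟩
  have hSlow : ∀ A ∈ Y, 100 * n ≤ 100 * (S A).card + n := by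
    intro A hA
    have h1 := (hpoor' A hA).1
    have h2 : (0 : ℝ) ≤ ((S A).filter fun ℓ => 4 * kk I X ℓ < n).card := Nat.cast_nonneg _
    have h3 : (100 : ℝ) * n ≤ 100 * (S A).card + n := by nlinarith
    exact_mod_cast h3
  have hout : ∀ A ∈ Y, 100 * ((S A).filter fun ℓ => ℓ ∉ 𝓛).card ≤ n := by
    intro A hA
    have h1 : ((S A).filter fun ℓ => ℓ ∉ 𝓛).card ≤
        ((S A).filter fun ℓ => 4 * kk I X ℓ < n).card := by
      apply Finset.card_le_card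
      intro ℓ hℓ
      obtain ⟨h1, h2⟩ := Finset.mem_filter.mp hℓ
      refine Finset.mem_filter.mpr ⟨h1, ?_⟩
      by_contra hcon
      push Not at hcon
      exact h2 (Finset.mem_filter.mpr ⟨Finset.mem_biUnion.mpr ⟨A, hA, h1⟩, hcon⟩)
    have h2 := (hpoor A hA).1
    have h3 : (((S A).filter fun ℓ => ℓ ∉ 𝓛).card : ℝ) ≤
        ((S A).filter fun ℓ => 4 * kk I X ℓ < n).card := by exact_mod_cast h1
    have h4 : (100 : ℝ) * ((S A).filter fun ℓ => ℓ ∉ 𝓛).card ≤ n := by nlinarith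
    exact_mod_cast h4
  set S' : P → Finset L := fun A => (S A).filter fun ℓ => ℓ ∈ 𝓛 with hS'
  have hS'card : ∀ A ∈ Y, n ≤ 2 * (S' A).card ∧ (S' A).card ≤ n := by
    intro A hA
    have h1 : (S' A).card + ((S A).filter fun ℓ => ℓ ∉ 𝓛).card = (S A).card :=
      Finset.card_filter_add_card_filter_not _
    have h0 := (hcov A hA).card
    have h3 := hSlow A hA
    have h2 := hout A hA
    omega
  have hsep : ∀ A ∈ Y, ∀ ℓ ∈ 𝓛₁, ℓ ∉ S' A → (S' A).card ≤ 5 * ((S' A).filter fun ℓ' => W ℓ ℓ').card := by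
    intro A hA ℓ hℓ hℓS
    obtain ⟨h1, h2⟩ := Finset.mem_filter.mp hℓ
    have h3 := (Finset.mem_filter.mp h1).2
    have h4 : ℓ ∉ S A := fun h => hℓS (Finset.mem_filter.mpr ⟨h, h1⟩)
    have h5 := (hcov A hA).many hl 𝓛 D h4
    have h6 := hout A hA
    have h7 := (hS'card A hA).2
    have h8 : ((S A).filter fun ℓ' => ℓ' ∈ 𝓛).filter (fun ℓ' => WW I X 𝓛 D ℓ ℓ') =
        (S' A).filter fun ℓ' => W ℓ ℓ' := rfl
    rw [h8] at h5
    omega
  set G : P → Finset (Fin R → L) := fun A =>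
    (tup R (S' A)).filter fun τ => 50 * (dst R 𝓛₁ (S' A) W τ : ℝ) ≤ n with hG
  have hGcard : ∀ A ∈ Y, (n / 2 : ℝ) ^ R / 2 ≤ (G A).card := by
    intro A hA
    obtain ⟨ha, hb⟩ := hS'card A hA
    have ha' : (n / 2 : ℝ) ≤ (S' A).card := by
      have : (n : ℝ) ≤ 2 * (S' A).card := by exact_mod_cast ha
      linarith
    have h1 := good_count R 𝓛₁ (S' A) W (D * exc I X A (S A)) n hn0 (hsep A hA)
      ((hcov A hA).few 𝓛 D) (by omega) h𝓛₁card (by
        have h2 := (hpoor A hA).2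
        push_cast
        calc (R : ℝ) * (D * exc I X A (S A)) ≤ R * (D * (2 * δ * n ^ 2)) := by gcongr
          _ ≤ (R + 1) * (D * (2 * δ * n ^ 2)) := by gcongr; linarith
          _ = (δ * (800 * (R + 1) * D)) * (n ^ 2 / 400) := by ring
          _ ≤ 1 * ((n : ℝ) ^ 2 / 400) := by gcongr
          _ = n / 200 * (n / 2) := by ring
          _ ≤ n / 200 * (S' A).card := by gcongr)
    have h3 : (n / 2 : ℝ) ^ R ≤ ((S' A).card : ℝ) ^ R := by gcongr
    have h4 : ((S' A).card : ℝ) ^ R ≤ 2 * (G A).card := h1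
    linarith
  obtain ⟨A₁, hA₁⟩ := hY
  have hGsub : ∀ A ∈ Y, G A ⊆ tup R 𝓛 := by
    intro A _ τ hτ
    have h1 := mem_tup.mp (Finset.mem_filter.mp hτ).1
    exact mem_tup.mpr fun i => (Finset.mem_filter.mp (h1 i)).2
  have hTne : (tup R 𝓛).Nonempty := by
    have h1 : (0 : ℝ) < (G A₁).card := lt_of_lt_of_le (by positivity) (hGcard A₁ hA₁)
    have h2 : 0 < (G A₁).card := by exact_mod_cast h1
    exact (Finset.card_pos.mp h2).mono (hGsub A₁ hA₁)
  obtain ⟨τ, -, hτ⟩ := exists_common Y (tup R 𝓛) hTne G hGsub _ hGcard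
  set Z := Y.filter fun A => τ ∈ G A with hZ
  have hYZ : (Y.card : ℝ) ≤ 2 * K * Z.card := by
    rw [card_tup] at hτ
    push_cast at hτ
    have h1 : (n / 2 : ℝ) ^ R / 2 * Y.card ≤ (C * n : ℝ) ^ R * Z.card := by
      refine hτ.trans ?_
      gcongr
    have h2 : (C * n : ℝ) ^ R = (n / 2 : ℝ) ^ R * K := by
      rw [hK, ← mul_pow]
      congr 1
      ring
    have h3 : (0 : ℝ) < (n / 2 : ℝ) ^ R := by positivity
    have h4 : (n / 2 : ℝ) ^ R * Y.card ≤ (n / 2 : ℝ) ^ R * (2 * K * Z.card) := by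
      rw [h2] at h1
      nlinarith
    exact le_of_mul_le_mul_left h4 h3
  have hZcard : (Z.card : ℝ) ≤ 1 + 66 * δ * n ^ 2 := by
    rcases Z.eq_empty_or_nonempty with hZe | ⟨A₀, hA₀⟩
    · rw [hZe]
      simp only [Finset.card_empty, Nat.cast_zero]
      positivity
    obtain ⟨hA₀Y, hA₀G⟩ := Finset.mem_filter.mp hA₀
    refine cluster_small hl hmax (by omega) (hcov A₀ hA₀Y) (hpoor A₀ hA₀Y).1 (hpoor A₀ hA₀Y).2 Z ?_
    intro A hA hne
    obtain ⟨hAY, hAG⟩ := Finset.mem_filter.mp hA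
    refine ⟨S A, hcov A hAY, ?_⟩
    have d1 : 50 * dst R 𝓛₁ (S' A) W τ ≤ n := by
      have := (Finset.mem_filter.mp hAG).2
      exact_mod_cast this
    have d2 : 50 * dst R 𝓛₁ (S' A₀) W τ ≤ n := by
      have := (Finset.mem_filter.mp hA₀G).2
      exact_mod_cast this
    have h1 : S A \ S A₀ ⊆ (((S A).filter fun ℓ => ℓ ∉ 𝓛) ∪ B) ∪
        (((S' A ∩ 𝓛₁) \ dec R 𝓛₁ W τ) ∪ (dec R 𝓛₁ W τ \ S' A₀)) := by
      intro ℓ hℓ
      obtain ⟨h1, h2⟩ := Finset.mem_sdiff.mp hℓ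
      by_cases h3 : ℓ ∈ 𝓛
      · by_cases h4 : n < 100 * multi I X 𝓛 D ℓ
        · exact Finset.mem_union_left _ (Finset.mem_union_right _ (Finset.mem_filter.mpr ⟨h3, h4⟩))
        · have h5 : ℓ ∈ 𝓛₁ := Finset.mem_filter.mpr ⟨h3, h4⟩
          have h6 : ℓ ∈ S' A := Finset.mem_filter.mpr ⟨h1, h3⟩
          by_cases h7 : ℓ ∈ dec R 𝓛₁ W τ
          · refine Finset.mem_union_right _ (Finset.mem_union_right _ (Finset.mem_sdiff.mpr
              ⟨h7, fun h8 => h2 (Finset.mem_filter.mp h8).1⟩))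
          · exact Finset.mem_union_right _ (Finset.mem_union_left _ (Finset.mem_sdiff.mpr
              ⟨Finset.mem_inter.mpr ⟨h6, h5⟩, h7⟩))
      · exact Finset.mem_union_left _ (Finset.mem_union_left _ (Finset.mem_filter.mpr ⟨h1, h3⟩))
    have h2 : (S A \ S A₀).card ≤ ((S A).filter fun ℓ => ℓ ∉ 𝓛).card + B.card +
        (dst R 𝓛₁ (S' A) W τ + dst R 𝓛₁ (S' A₀) W τ) := by
      refine (Finset.card_le_card h1).trans ((Finset.card_union_le _ _).trans ?_)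
      refine add_le_add (Finset.card_union_le _ _) ((Finset.card_union_le _ _).trans ?_)
      refine add_le_add ?_ ?_
      · simp only [dst]; omega
      · simp only [dst]; omega
    have h3 := hout A hAY
    omega
  -- conclusion
  have hXr : (n : ℝ) ^ 2 / 2 ≤ X.card := by
    rw [hX, Nat.cast_choose_two]
    push_cast
    nlinarith
  have hn2 : 8 * K ≤ ε * n ^ 2 := by
    have h1 : 8 * K ≤ n * ε := by rwa [div_le_iff₀ hε] at hnK
    have h2 : (n : ℝ) ≤ n ^ 2 := by nlinarith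
    nlinarith
  calc (Y.card : ℝ) ≤ 2 * K * Z.card := hYZ
    _ ≤ 2 * K * (1 + 66 * δ * n ^ 2) := by gcongr
    _ = (8 * K) / 4 + (δ * (528 * K)) * (n ^ 2 / 4) := by ring
    _ ≤ (ε * n ^ 2) / 4 + ε * (n ^ 2 / 4) := by gcongr
    _ = ε * (n ^ 2 / 2) := by ring
    _ ≤ ε * X.card := by gcongr

end Pool.Agent.Work.MP_d899bc_co.Half
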