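import Pool.Agent.Work.MP_d899bc_co.Half.Sample

/-!
Nodes with almost the same cover are few.
-/

set_option autoImplicit false

namespace Pool.Agent.Work.MP_d899bc_co.Half

variable {P L : Type} {I : P → L → Prop} {X : Finset P} {n : ℕ} {A A₀ : P} {S S₀ : Finset L}

open Classical in
/-- points of `ℓ` that no other line of `S` contains -/
noncomputable def tt {P L : Type} (I : P → L → Prop) (X : Finset P) (S : Finset L) (ℓ : L) : ℕ :=
  (X.filter fun C => I C ℓ ∧ rr I S C ≤ 1).card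

open Classical in
/-- points of `ℓ` that another line of `S` contains -/
noncomputable def mm {P L : Type} (I : P → L → Prop) (X : Finset P) (S : Finset L) (ℓ : L) : ℕ :=
  (X.filter fun C => I C ℓ ∧ 1 < rr I S C).card

theorem kk_eq (I : P → L → Prop) (X : Finset P) (S : Finset L) (ℓ : L) :
    kk I X ℓ = tt I X S ℓ + mm I X S ℓ := by
  classical
  simp only [kk, tt, mm, Finset.card_filter, ← Finset.sum_add_distrib]
  refine Finset.sum_congr rfl fun C _ => ?_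
  by_cases h1 : I C ℓ <;> by_cases h2 : rr I S C ≤ 1
  · simp [h1, h2, not_lt.mpr h2]
  · simp [h1, h2, not_le.mp h2]
  · simp [h1]
  · simp [h1]

open Classical in
theorem sum_mm (h : Cov I X n A S) : ∑ ℓ ∈ S, mm I X S ℓ ≤ 2 * exc I X A S := by
  have h1 : ∑ ℓ ∈ S, mm I X S ℓ = ∑ C ∈ X.filter (fun C => 1 < rr I S C), rr I S C := by
    simp only [mm, Finset.card_filter]
    rw [Finset.sum_comm, Finset.sum_filter]
    refine Finset.sum_congr rfl fun C _ => ?_
    by_cases h : 1 < rr I S C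
    · simp only [h, and_true, if_true]
      rw [rr, Finset.card_filter]
    · simp [h]
  rw [h1, exc, Finset.mul_sum]
  calc ∑ C ∈ X.filter (fun C => 1 < rr I S C), rr I S C
      ≤ ∑ C ∈ X.filter (fun C => 1 < rr I S C), 2 * (rr I S C - 1) := by
        refine Finset.sum_le_sum fun C hC => ?_
        have := (Finset.mem_filter.mp hC).2
        omega
    _ ≤ _ := by
        apply Finset.sum_le_sum_of_subset
        intro C hC
        obtain ⟨hC1, hC2⟩ := Finset.mem_filter.mp hC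
        refine Finset.mem_erase.mpr ⟨?_, hC1⟩
        rintro rfl
        rw [h.rr_self] at hC2
        omega

open Classical in
/-- the lines of `S₀` through a node `A` have few private points if the cover of `A` is close -/
theorem private_le (hl : Linear I) (h : Cov I X n A S) {ℓ : L} (hℓ : ℓ ∈ S₀)
    (hA : I A ℓ) : tt I X S₀ ℓ ≤ (S \ S₀).card + 1 := by
  set Q := (X.filter fun C => I C ℓ ∧ rr I S₀ C ≤ 1).erase A with hQ
  have h1 : tt I X S₀ ℓ ≤ Q.card + 1 := by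
    have := Finset.pred_card_le_card_erase (s := X.filter fun C => I C ℓ ∧ rr I S₀ C ≤ 1) (a := A)
    rw [tt, hQ]
    omega
  have hℓS : ℓ ∉ S := fun h' => h.miss ℓ h' hA
  have hex : ∀ C : P, ∃ ℓ', C ∈ Q → ℓ' ∈ S ∧ I C ℓ' := by
    intro C
    by_cases hC : C ∈ Q
    · obtain ⟨hC1, hC2⟩ := Finset.mem_erase.mp hC
      obtain ⟨ℓ', h1, h2⟩ := h.cov C (Finset.mem_filter.mp hC2).1 hC1
      exact ⟨ℓ', fun _ => ⟨h1, h2⟩⟩
    · exact ⟨ℓ, fun h => absurd h hC⟩
  choose g hg using hex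
  have h2 : Q.card ≤ (S \ S₀).card := by
    apply Finset.card_le_card_of_injOn g
    · intro C hC
      obtain ⟨hC1, hC2⟩ := Finset.mem_erase.mp hC
      obtain ⟨hC3, hC4, hC5⟩ := Finset.mem_filter.mp hC2
      obtain ⟨g1, g2⟩ := hg C hC
      refine Finset.mem_sdiff.mpr ⟨g1, fun g3 => ?_⟩
      have := Finset.card_le_one.mp hC5 (g C) (Finset.mem_filter.mpr ⟨g3, g2⟩) ℓ
        (Finset.mem_filter.mpr ⟨hℓ, hC4⟩)
      rw [this] at g1
      exact hℓS g1
    · intro C hC C' hC' hgg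
      obtain ⟨hC1, hC2⟩ := Finset.mem_erase.mp hC
      obtain ⟨hC3, hC4, hC5⟩ := Finset.mem_filter.mp hC2
      obtain ⟨hC1', hC2'⟩ := Finset.mem_erase.mp hC'
      obtain ⟨hC3', hC4', hC5'⟩ := Finset.mem_filter.mp hC2'
      obtain ⟨g1, g2⟩ := hg C hC
      obtain ⟨g1', g2'⟩ := hg C' hC'
      by_contra hne
      rw [← hgg] at g2'
      have := hl ℓ (g C) C C' hne hC4 hC4' g2 g2'
      rw [← this] at g1
      exact hℓS g1
  omega

open Classical in
/-- (7) -/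
theorem cluster_small (hl : Linear I) (hmax : ∀ ℓ, kk I X ℓ ≤ n + 1) (hn : 16 ≤ n)
    (h0 : Cov I X n A₀ S₀) {δ : ℝ}
    (hp : ((S₀.filter fun ℓ => 4 * kk I X ℓ < n).card : ℝ) ≤ 8 * δ * n)
    (he : (exc I X A₀ S₀ : ℝ) ≤ 2 * δ * n ^ 2) (Y : Finset P)
    (hY : ∀ A ∈ Y, A ≠ A₀ → ∃ S, Cov I X n A S ∧ 100 * (S \ S₀).card ≤ 6 * n) :
    (Y.card : ℝ) ≤ 1 + 66 * δ * n ^ 2 := by
  set Bad := S₀.filter fun ℓ => 100 * tt I X S₀ ℓ ≤ 6 * n + 100 with hBad
  have h1 : Y ⊆ {A₀} ∪ Bad.biUnion fun ℓ => X.filter fun C => I C ℓ := by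
    intro A hA
    by_cases hAA : A = A₀
    · exact Finset.mem_union_left _ (Finset.mem_singleton.mpr hAA)
    · obtain ⟨S, hS, hS2⟩ := hY A hA hAA
      obtain ⟨ℓ, hℓ, hI⟩ := h0.cov A hS.hA hAA
      refine Finset.mem_union_right _ (Finset.mem_biUnion.mpr ⟨ℓ, Finset.mem_filter.mpr ⟨hℓ, ?_⟩,
        Finset.mem_filter.mpr ⟨hS.hA, hI⟩⟩)
      have := private_le hl hS hℓ hI
      omega
  have h2 : Y.card ≤ 1 + ∑ ℓ ∈ Bad, kk I X ℓ := by
    calc Y.card ≤ ({A₀} ∪ Bad.biUnion fun ℓ => X.filter fun C => I C ℓ).card :=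
          Finset.card_le_card h1
      _ ≤ ({A₀} : Finset P).card + (Bad.biUnion fun ℓ => X.filter fun C => I C ℓ).card :=
          Finset.card_union_le _ _
      _ ≤ _ := by
          rw [Finset.card_singleton]
          gcongr
          exact Finset.card_biUnion_le
  have h3 : ∀ ℓ ∈ Bad, (kk I X ℓ : ℝ) ≤ (if 4 * kk I X ℓ < n then (n : ℝ) / 4 else 0) +
      16 * mm I X S₀ ℓ := by
    intro ℓ hℓ
    have ht := (Finset.mem_filter.mp hℓ).2
    have hk := kk_eq I X S₀ ℓ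
    have hm := hmax ℓ
    split_ifs with hc
    · have hc' : (4 : ℝ) * kk I X ℓ < n := by exact_mod_cast hc
      have : (0 : ℝ) ≤ mm I X S₀ ℓ := Nat.cast_nonneg _
      linarith
    · have : kk I X ℓ ≤ 16 * mm I X S₀ ℓ := by omega
      have : (kk I X ℓ : ℝ) ≤ 16 * mm I X S₀ ℓ := by exact_mod_cast this
      linarith
  have h4 : ∑ ℓ ∈ Bad, (kk I X ℓ : ℝ) ≤ 2 * δ * n ^ 2 + 16 * (2 * (2 * δ * n ^ 2)) := by
    calc ∑ ℓ ∈ Bad, (kk I X ℓ : ℝ) ≤ ∑ ℓ ∈ Bad, ((if 4 * kk I X ℓ < n then (n : ℝ) / 4 else 0) +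
          16 * mm I X S₀ ℓ) := Finset.sum_le_sum h3
      _ ≤ ∑ ℓ ∈ S₀, ((if 4 * kk I X ℓ < n then (n : ℝ) / 4 else 0) + 16 * mm I X S₀ ℓ) := by
          apply Finset.sum_le_sum_of_subset_of_nonneg (Finset.filter_subset _ _)
          intro ℓ _ _
          positivity
      _ = (S₀.filter fun ℓ => 4 * kk I X ℓ < n).card * ((n : ℝ) / 4) +
          16 * ((∑ ℓ ∈ S₀, mm I X S₀ ℓ : ℕ) : ℝ) := by
          rw [Finset.sum_add_distrib, ← Finset.sum_filter, Finset.sum_const, nsmul_eq_mul,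
            ← Finset.mul_sum]
          push_cast
          rfl
      _ ≤ (8 * δ * n) * ((n : ℝ) / 4) + 16 * (2 * (2 * δ * n ^ 2)) := by
          have h5 : ((∑ ℓ ∈ S₀, mm I X S₀ ℓ : ℕ) : ℝ) ≤ 2 * exc I X A₀ S₀ := by
            exact_mod_cast sum_mm h0
          gcongr
          linarith
      _ = _ := by ring
  have h5 : (Y.card : ℝ) ≤ 1 + ∑ ℓ ∈ Bad, (kk I X ℓ : ℝ) := by exact_mod_cast h2
  linarith

end Pool.Agent.Work.MP_d899bc_co.Half
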