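import Pool.Agent.Work.MP_d899bc_co.Half.Core
import Pool.Agent.Work.MP_d899bc_co.ST.Rich
import Pool.Agent.Work.MP_d899bc_co.Joined

/-!
Every `GC_n` set has a linear number of lines with at least `(1/2 + c) n` nodes.
-/

set_option autoImplicit false

namespace Pool.Agent.Work.MP_d899bc_co.Half

/-- a line of the plane -/
def IsLine (ℓ : Set (ℝ × ℝ)) : Prop :=
  ∃ a b d : ℝ, (a ≠ 0 ∨ b ≠ 0) ∧ ℓ = {q | a * q.1 + b * q.2 = d}

/-- incidence of a point and a line -/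
def Inc (C : ℝ × ℝ) (ℓ : Set (ℝ × ℝ)) : Prop := C ∈ ℓ ∧ IsLine ℓ

theorem linear_inc : Linear Inc := fun ℓ ℓ' C C' hne h1 h2 h3 h4 =>
  lines_eq ℓ ℓ' h1.2 h3.2 C C' hne h1.1 h2.1 h3.1 h4.1

theorem kk_inc {X : Finset (ℝ × ℝ)} {ℓ : Set (ℝ × ℝ)} (h : IsLine ℓ) :
    kk Inc X ℓ = {q | q ∈ X ∧ q ∈ ℓ}.ncard := by
  classical
  rw [kk, ← Set.ncard_coe_finset]
  congr 1
  ext q
  simp [Inc, h]

theorem kk_inc_zero {X : Finset (ℝ × ℝ)} {ℓ : Set (ℝ × ℝ)} (h : ¬ IsLine ℓ) :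
    kk Inc X ℓ = 0 := by
  classical
  rw [kk, Finset.card_eq_zero, Finset.filter_eq_empty_iff]
  exact fun q _ hq => h hq.2

theorem cov_of {n : ℕ} {X : Finset (ℝ × ℝ)} {A : ℝ × ℝ} {S : Finset (Set (ℝ × ℝ))} (hA : A ∈ X)
    (h1 : ∀ ℓ ∈ S, IsLine ℓ) (h2 : S.card ≤ n) (h3 : ∀ ℓ ∈ S, A ∉ ℓ)
    (h4 : ∀ B ∈ X, B ≠ A → ∃ ℓ ∈ S, B ∈ ℓ) : Cov Inc X n A S :=
  ⟨hA, h2, fun ℓ hℓ h => h3 ℓ hℓ h.1, fun C hC hne => by
    obtain ⟨ℓ, hℓ, h⟩ := h4 C hC hne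
    exact ⟨ℓ, hℓ, h, h1 ℓ hℓ⟩⟩

/-- a cover has a line with at least `(n + 3) / 2` nodes -/
theorem Cov.exists_rich {n : ℕ} {X : Finset (ℝ × ℝ)} {A : ℝ × ℝ} {S : Finset (Set (ℝ × ℝ))}
    (h : Cov Inc X n A S) (hn : 1 ≤ n) (hX : X.card = (n + 2).choose 2) :
    ∃ ℓ ∈ S, n + 3 ≤ 2 * kk Inc X ℓ := by
  by_contra hcon
  push Not at hcon
  have h1 := h.sum
  have h2 : X.card * 2 = (n + 2) * (n + 1) := by
    rw [hX, Nat.choose_two_right]
    have : 2 ∣ (n + 2) * (n + 2 - 1) := by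
      rw [mul_comm]
      exact (Nat.even_mul_succ_self (n + 1)).two_dvd
    rw [Nat.div_mul_cancel this]
    simp
  have h3 : 2 * ∑ ℓ ∈ S, kk Inc X ℓ ≤ S.card * (n + 2) := by
    rw [Finset.mul_sum, ← smul_eq_mul (S.card), ← Finset.sum_const]
    exact Finset.sum_le_sum fun ℓ hℓ => by have := hcon ℓ hℓ; omega
  have h4 : S.card * (n + 2) ≤ n * (n + 2) := Nat.mul_le_mul_right _ h.card
  nlinarith

open Classical in
/-- The general theorem. -/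
theorem few_nodes (ε : ℝ) (hε : 0 < ε) :
    ∃ c : ℝ, 0 < c ∧ ∀ n : ℕ, 1 ≤ n → ∀ X : Finset (ℝ × ℝ), X.card = (n + 2).choose 2 →
      (∀ ℓ, kk Inc X ℓ ≤ n + 1) → ∀ (Y : Finset (ℝ × ℝ)) (S : ℝ × ℝ → Finset (Set (ℝ × ℝ))),
      (∀ A ∈ Y, Cov Inc X n A (S A)) →
      (∀ A ∈ Y, (((S A).filter fun ℓ => (1 / 2 + c) * n ≤ (kk Inc X ℓ : ℝ)).card : ℝ) < c * n) →
      (Y.card : ℝ) ≤ ε * X.card := by
  obtain ⟨δ, hδ, hδ1, n₀, hcore⟩ := core 147456 (by norm_num) ε hε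
  obtain ⟨N, hN8, hNn₀⟩ : ∃ N : ℕ, 8 ≤ N ∧ n₀ ≤ N := ⟨max n₀ 8, le_max_right _ _, le_max_left _ _⟩
  have hN : (0 : ℝ) < N := by
    have : 0 < N := by omega
    exact_mod_cast this
  refine ⟨min δ (1 / N), lt_min hδ (by positivity), ?_⟩
  intro n hn X hX hmax Y S hcov hfew
  set c : ℝ := min δ (1 / N) with hc
  have hcδ : c ≤ δ := min_le_left _ _
  have hc0 : 0 < c := lt_min hδ (by positivity)
  have hn0 : (0 : ℝ) < n := by exact_mod_cast hn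
  by_cases hlarge : N ≤ n
  · have hn8 : 8 ≤ n := hN8.trans hlarge
    refine hcore n (hNn₀.trans hlarge) Inc linear_inc X hX hmax ?_ Y S hcov ?_
    · intro 𝓛 h𝓛
      have hline : ∀ ℓ ∈ 𝓛, IsLine ℓ := by
        intro ℓ hℓ
        by_contra hno
        have := h𝓛 ℓ hℓ
        rw [kk_inc_zero hno] at this
        omega
      refine ST.rich_lines n hn8 X ?_ 𝓛 hline fun ℓ hℓ => ?_
      · rw [hX, Nat.choose_two_right, Nat.add_sub_assoc (by norm_num)]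
        apply Nat.div_le_of_le_mul
        nlinarith
      · rw [← kk_inc (hline ℓ hℓ)]
        exact h𝓛 ℓ hℓ
    · intro A hA
      have h1 : (((S A).filter fun ℓ => (1 / 2 + δ) * n ≤ (kk Inc X ℓ : ℝ)).card : ℝ) ≤
          ((S A).filter fun ℓ => (1 / 2 + c) * n ≤ (kk Inc X ℓ : ℝ)).card := by
        norm_cast
        apply Finset.card_le_card
        intro ℓ hℓ
        obtain ⟨h1, h2⟩ := Finset.mem_filter.mp hℓ
        refine Finset.mem_filter.mpr ⟨h1, le_trans ?_ h2⟩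
        gcongr
      have h2 := hfew A hA
      have h3 : c * n ≤ δ * n := by gcongr
      linarith
  · have hempty : Y = ∅ := by
      rw [Finset.eq_empty_iff_forall_notMem]
      intro A hA
      push Not at hlarge
      have hnlt : (n : ℝ) ≤ N := by exact_mod_cast hlarge.le
      have hcn : c * n ≤ 1 := by
        calc c * n ≤ 1 / N * N := by
              gcongr
              exact min_le_right _ _
          _ = 1 := by field_simp
      obtain ⟨ℓ, hℓ, hk⟩ := (hcov A hA).exists_rich hn hX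
      have hkr : (n : ℝ) + 3 ≤ 2 * kk Inc X ℓ := by exact_mod_cast hk
      have h1 : 0 < ((S A).filter fun ℓ => (1 / 2 + c) * n ≤ (kk Inc X ℓ : ℝ)).card :=
        Finset.card_pos.mpr ⟨ℓ, Finset.mem_filter.mpr ⟨hℓ, by nlinarith⟩⟩
      have h2 : (1 : ℝ) ≤ ((S A).filter fun ℓ => (1 / 2 + c) * n ≤ (kk Inc X ℓ : ℝ)).card := by
        exact_mod_cast h1
      have h3 := hfew A hA
      linarith
    rw [hempty]
    simp only [Finset.card_empty, Nat.cast_zero]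
    positivity

end Pool.Agent.Work.MP_d899bc_co.Half
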