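import Pool.Agent.Work.MP_d899bc_co.Half.Basic

/-!
Decoding an almost independent set from a random sample of its elements.
-/

set_option autoImplicit false

namespace Pool.Agent.Work.MP_d899bc_co.Half

variable {L : Type}

open Classical in
/-- samples: all `R`-tuples of elements of `S` -/
noncomputable def tup (R : ℕ) (S : Finset L) : Finset (Fin R → L) :=
  Fintype.piFinset fun _ => S

theorem mem_tup {R : ℕ} {S : Finset L} {τ : Fin R → L} : τ ∈ tup R S ↔ ∀ i, τ i ∈ S := by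
  classical
  simp [tup]

theorem card_tup (R : ℕ) (S : Finset L) : (tup R S).card = S.card ^ R := by
  classical
  simp [tup]

open Classical in
/-- the decoded set -/
noncomputable def dec (R : ℕ) (𝓛 : Finset L) (W : L → L → Prop) (τ : Fin R → L) : Finset L :=
  𝓛.filter fun ℓ => ∀ i, ¬ W ℓ (τ i)

open Classical in
theorem card_none (R : ℕ) (S : Finset L) (p : L → Prop) :
    ((tup R S).filter fun τ => ∀ i, ¬ p (τ i)).card = (S.filter fun ℓ => ¬ p ℓ).card ^ R := by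
  have : ((tup R S).filter fun τ => ∀ i, ¬ p (τ i)) = tup R (S.filter fun ℓ => ¬ p ℓ) := by
    ext τ
    simp only [Finset.mem_filter, mem_tup]
    exact ⟨fun h i => ⟨h.1 i, h.2 i⟩, fun h => ⟨fun i => (h i).1, fun i => (h i).2⟩⟩
  rw [this, card_tup]

open Classical in
theorem card_at (R : ℕ) (S : Finset L) (p : L → Prop) (i : Fin R) :
    ((tup R S).filter fun τ => p (τ i)).card * S.card = (S.filter p).card * S.card ^ R := by
  have h1 : ((tup R S).filter fun τ => p (τ i)) =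
      Fintype.piFinset (fun j => if j = i then S.filter p else S) := by
    ext τ
    simp only [Finset.mem_filter, mem_tup, Fintype.mem_piFinset]
    constructor
    · intro h j
      by_cases hj : j = i
      · subst hj
        simp [h.1 j, h.2]
      · simp [hj, h.1 j]
    · intro h
      refine ⟨fun j => ?_, ?_⟩
      · by_cases hj : j = i
        · have := h j
          simp only [hj, if_true, Finset.mem_filter] at this
          rw [hj]
          exact this.1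
        · simpa [hj] using h j
      · have := h i
        simp only [if_true, Finset.mem_filter] at this
        exact this.2
  rw [h1, Fintype.card_piFinset, ← Finset.mul_prod_erase _ _ (Finset.mem_univ i)]
  simp only [if_true]
  have h2 : ∏ x ∈ Finset.univ.erase i, (if x = i then S.filter p else S).card =
      S.card ^ (R - 1) := by
    rw [Finset.prod_congr rfl (g := fun _ => S.card)]
    · rw [Finset.prod_const, Finset.card_erase_of_mem (Finset.mem_univ i), Finset.card_univ,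
        Fintype.card_fin]
    · intro x hx
      simp [(Finset.mem_erase.mp hx).1]
  rw [h2, mul_assoc, ← pow_succ]
  have : R - 1 + 1 = R := by
    have := i.pos
    omega
  rw [this]

open Classical in
theorem card_exists (R : ℕ) (S : Finset L) (p : L → Prop) :
    ((tup R S).filter fun τ => ∃ i, p (τ i)).card * S.card ≤
      R * ((S.filter p).card * S.card ^ R) := by
  have h1 : ((tup R S).filter fun τ => ∃ i, p (τ i)).card ≤
      ∑ i : Fin R, ((tup R S).filter fun τ => p (τ i)).card := by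
    refine (Finset.card_le_card ?_).trans Finset.card_biUnion_le
    intro τ hτ
    obtain ⟨h1, i, hi⟩ := Finset.mem_filter.mp hτ
    exact Finset.mem_biUnion.mpr ⟨i, Finset.mem_univ _, Finset.mem_filter.mpr ⟨h1, hi⟩⟩
  calc _ ≤ (∑ i : Fin R, ((tup R S).filter fun τ => p (τ i)).card) * S.card :=
        Nat.mul_le_mul_right _ h1
    _ = ∑ i : Fin R, (S.filter p).card * S.card ^ R := by
        rw [Finset.sum_mul]
        exact Finset.sum_congr rfl fun i _ => card_at R S p i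
    _ = _ := by simp

open Classical in
/-- distance between the decoded set and `S` inside `𝓛` -/
noncomputable def dst (R : ℕ) (𝓛 S : Finset L) (W : L → L → Prop) (τ : Fin R → L) : ℕ :=
  (dec R 𝓛 W τ \ S).card + ((S ∩ 𝓛) \ dec R 𝓛 W τ).card

open Classical in
theorem sum_dst (R : ℕ) (𝓛 S : Finset L) (W : L → L → Prop) (b : ℕ)
    (h1 : ∀ ℓ ∈ 𝓛, ℓ ∉ S → S.card ≤ 5 * (S.filter fun ℓ' => W ℓ ℓ').card)
    (h2 : ∑ ℓ ∈ S, (S.filter fun ℓ' => W ℓ ℓ').card ≤ b) :
    (∑ τ ∈ tup R S, (dst R 𝓛 S W τ : ℝ)) * S.card ≤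
      𝓛.card * (4 / 5 : ℝ) ^ R * (S.card : ℝ) ^ R * S.card + R * b * (S.card : ℝ) ^ R := by
  -- first part
  have e1 : ∑ τ ∈ tup R S, (dec R 𝓛 W τ \ S).card =
      ∑ ℓ ∈ 𝓛 \ S, ((tup R S).filter fun τ => ∀ i, ¬ W ℓ (τ i)).card := by
    have : ∀ τ, (dec R 𝓛 W τ \ S) = (𝓛 \ S).filter fun ℓ => ∀ i, ¬ W ℓ (τ i) := by
      intro τ
      ext ℓ
      simp only [dec, Finset.mem_sdiff, Finset.mem_filter]
      tauto
    simp only [this, Finset.card_filter]
    exact Finset.sum_comm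
  have e2 : ∑ τ ∈ tup R S, ((S ∩ 𝓛) \ dec R 𝓛 W τ).card =
      ∑ ℓ ∈ S ∩ 𝓛, ((tup R S).filter fun τ => ∃ i, W ℓ (τ i)).card := by
    have : ∀ τ, ((S ∩ 𝓛) \ dec R 𝓛 W τ) = (S ∩ 𝓛).filter fun ℓ => ∃ i, W ℓ (τ i) := by
      intro τ
      ext ℓ
      simp only [dec, Finset.mem_sdiff, Finset.mem_filter, Finset.mem_inter, not_and, not_forall,
        not_not]
      tauto
    simp only [this, Finset.card_filter]
    exact Finset.sum_comm
  have b1 : ∀ ℓ ∈ 𝓛 \ S, (((tup R S).filter fun τ => ∀ i, ¬ W ℓ (τ i)).card : ℝ) ≤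
      (4 / 5 : ℝ) ^ R * (S.card : ℝ) ^ R := by
    intro ℓ hℓ
    obtain ⟨a1, a2⟩ := Finset.mem_sdiff.mp hℓ
    rw [card_none, ← mul_pow]
    push_cast
    gcongr
    have h3 := h1 ℓ a1 a2
    have h4 : (S.filter fun ℓ' => W ℓ ℓ').card + (S.filter fun ℓ' => ¬ W ℓ ℓ').card = S.card :=
      Finset.card_filter_add_card_filter_not _
    have h3' : (S.card : ℝ) ≤ 5 * ((S.filter fun ℓ' => W ℓ ℓ').card : ℝ) := by exact_mod_cast h3
    have h4' : ((S.filter fun ℓ' => W ℓ ℓ').card : ℝ) +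
        ((S.filter fun ℓ' => ¬ W ℓ ℓ').card : ℝ) = S.card := by exact_mod_cast h4
    linarith
  have f1 : (∑ τ ∈ tup R S, ((dec R 𝓛 W τ \ S).card : ℝ)) ≤
      𝓛.card * ((4 / 5 : ℝ) ^ R * (S.card : ℝ) ^ R) := by
    have : (∑ τ ∈ tup R S, ((dec R 𝓛 W τ \ S).card : ℝ)) =
        ∑ ℓ ∈ 𝓛 \ S, (((tup R S).filter fun τ => ∀ i, ¬ W ℓ (τ i)).card : ℝ) := by
      exact_mod_cast e1
    rw [this]
    calc _ ≤ ∑ ℓ ∈ 𝓛 \ S, (4 / 5 : ℝ) ^ R * (S.card : ℝ) ^ R := Finset.sum_le_sum b1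
      _ = (𝓛 \ S).card * ((4 / 5 : ℝ) ^ R * (S.card : ℝ) ^ R) := by
          rw [Finset.sum_const, nsmul_eq_mul]
      _ ≤ _ := by
          gcongr
          exact Finset.sdiff_subset
  have f2 : (∑ τ ∈ tup R S, (((S ∩ 𝓛) \ dec R 𝓛 W τ).card : ℝ)) * S.card ≤
      R * b * (S.card : ℝ) ^ R := by
    have e3 : (∑ ℓ ∈ S ∩ 𝓛, ((tup R S).filter fun τ => ∃ i, W ℓ (τ i)).card) * S.card ≤
        R * b * S.card ^ R := by
      rw [Finset.sum_mul]
      calc _ ≤ ∑ ℓ ∈ S ∩ 𝓛, R * ((S.filter fun ℓ' => W ℓ ℓ').card * S.card ^ R) :=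
            Finset.sum_le_sum fun ℓ _ => card_exists R S (W ℓ)
        _ ≤ ∑ ℓ ∈ S, R * ((S.filter fun ℓ' => W ℓ ℓ').card * S.card ^ R) :=
            Finset.sum_le_sum_of_subset Finset.inter_subset_left
        _ = R * (∑ ℓ ∈ S, (S.filter fun ℓ' => W ℓ ℓ').card) * S.card ^ R := by
            rw [Finset.mul_sum, Finset.sum_mul]
            exact Finset.sum_congr rfl fun ℓ _ => by ring
        _ ≤ _ := by gcongr
    rw [← e2] at e3
    exact_mod_cast e3
  have e0 : (∑ τ ∈ tup R S, (dst R 𝓛 S W τ : ℝ)) =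
      (∑ τ ∈ tup R S, ((dec R 𝓛 W τ \ S).card : ℝ)) +
        ∑ τ ∈ tup R S, (((S ∩ 𝓛) \ dec R 𝓛 W τ).card : ℝ) := by
    rw [← Finset.sum_add_distrib]
    refine Finset.sum_congr rfl fun τ _ => ?_
    simp only [dst]
    push_cast
    ring
  rw [e0, add_mul]
  have g1 : (∑ τ ∈ tup R S, ((dec R 𝓛 W τ \ S).card : ℝ)) * S.card ≤
      𝓛.card * ((4 / 5 : ℝ) ^ R * (S.card : ℝ) ^ R) * S.card := by gcongr
  calc _ ≤ 𝓛.card * ((4 / 5 : ℝ) ^ R * (S.card : ℝ) ^ R) * S.card + R * b * (S.card : ℝ) ^ R :=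
        add_le_add g1 f2
    _ = _ := by ring

open Classical in
/-- at least half of the samples decode `S` up to `n / 50` -/
theorem good_count (R : ℕ) (𝓛 S : Finset L) (W : L → L → Prop) (b : ℕ) (n : ℝ) (hn : 0 < n)
    (h1 : ∀ ℓ ∈ 𝓛, ℓ ∉ S → S.card ≤ 5 * (S.filter fun ℓ' => W ℓ ℓ').card)
    (h2 : ∑ ℓ ∈ S, (S.filter fun ℓ' => W ℓ ℓ').card ≤ b) (hS : 0 < S.card)
    (h3 : 𝓛.card * (4 / 5 : ℝ) ^ R ≤ n / 200) (h4 : R * (b : ℝ) ≤ n / 200 * S.card) :
    (S.card : ℝ) ^ R ≤ 2 * ((tup R S).filter fun τ => 50 * (dst R 𝓛 S W τ : ℝ) ≤ n).card := by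
  have hS0 : (0 : ℝ) < S.card := by exact_mod_cast hS
  have hsum := sum_dst R 𝓛 S W b h1 h2
  have hsum2 : (∑ τ ∈ tup R S, (dst R 𝓛 S W τ : ℝ)) ≤ n / 100 * (S.card : ℝ) ^ R := by
    have : (∑ τ ∈ tup R S, (dst R 𝓛 S W τ : ℝ)) * S.card ≤
        (n / 100 * (S.card : ℝ) ^ R) * S.card := by
      refine hsum.trans ?_
      have a1 : 𝓛.card * (4 / 5 : ℝ) ^ R * (S.card : ℝ) ^ R * S.card ≤
          n / 200 * (S.card : ℝ) ^ R * S.card := by gcongr
      have a2 : R * b * (S.card : ℝ) ^ R ≤ n / 200 * S.card * (S.card : ℝ) ^ R := by gcongr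
      linarith
    exact le_of_mul_le_mul_right this hS0
  set G := (tup R S).filter fun τ => 50 * (dst R 𝓛 S W τ : ℝ) ≤ n with hG
  set B := (tup R S).filter fun τ => ¬ 50 * (dst R 𝓛 S W τ : ℝ) ≤ n with hB
  have hGB : (G.card : ℝ) + B.card = (S.card : ℝ) ^ R := by
    have : G.card + B.card = (tup R S).card := Finset.card_filter_add_card_filter_not _
    rw [card_tup] at this
    exact_mod_cast this
  have hBs : (B.card : ℝ) * (n / 50) ≤ ∑ τ ∈ tup R S, (dst R 𝓛 S W τ : ℝ) := by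
    calc (B.card : ℝ) * (n / 50) = ∑ _τ ∈ B, n / 50 := by rw [Finset.sum_const, nsmul_eq_mul]
      _ ≤ ∑ τ ∈ B, (dst R 𝓛 S W τ : ℝ) := by
          refine Finset.sum_le_sum fun τ hτ => ?_
          have := (Finset.mem_filter.mp hτ).2
          push Not at this
          linarith
      _ ≤ _ := Finset.sum_le_sum_of_subset_of_nonneg (Finset.filter_subset _ _)
          fun _ _ _ => Nat.cast_nonneg _
  have hB2 : (B.card : ℝ) * (n / 50) ≤ ((S.card : ℝ) ^ R / 2) * (n / 50) := by linarith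
  have hB3 : (B.card : ℝ) ≤ (S.card : ℝ) ^ R / 2 :=
    le_of_mul_le_mul_right hB2 (by positivity)
  linarith

/-- a common sample for many sets -/
theorem exists_common {ι T : Type} [DecidableEq T] (Y : Finset ι) (𝒯 : Finset T) (hne : 𝒯.Nonempty)
    (G : ι → Finset T) (hG : ∀ i ∈ Y, G i ⊆ 𝒯) (g : ℝ) (hg : ∀ i ∈ Y, g ≤ (G i).card) :
    ∃ τ ∈ 𝒯, g * Y.card ≤ 𝒯.card * (Y.filter fun i => τ ∈ G i).card := by
  by_contra hcon
  push Not at hcon
  have h1 : ∑ τ ∈ 𝒯, ((Y.filter fun i => τ ∈ G i).card : ℝ) = ∑ i ∈ Y, ((G i).card : ℝ) := by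
    have : ∑ τ ∈ 𝒯, (Y.filter fun i => τ ∈ G i).card = ∑ i ∈ Y, (G i).card := by
      simp only [Finset.card_filter]
      rw [Finset.sum_comm]
      refine Finset.sum_congr rfl fun i hi => ?_
      rw [← Finset.card_filter, Finset.filter_mem_eq_inter, Finset.inter_eq_right.mpr (hG i hi)]
    exact_mod_cast this
  have h2 : g * Y.card ≤ ∑ i ∈ Y, ((G i).card : ℝ) := by
    calc g * Y.card = ∑ _i ∈ Y, g := by rw [Finset.sum_const, nsmul_eq_mul]; ring
      _ ≤ _ := Finset.sum_le_sum hg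
  have h3 : ∑ τ ∈ 𝒯, ((𝒯.card : ℝ) * (Y.filter fun i => τ ∈ G i).card) <
      ∑ _τ ∈ 𝒯, g * (Y.card : ℝ) := Finset.sum_lt_sum_of_nonempty hne hcon
  rw [← Finset.mul_sum, h1, Finset.sum_const, nsmul_eq_mul] at h3
  have h4 : (0 : ℝ) < 𝒯.card := by exact_mod_cast Finset.card_pos.mpr hne
  have h5 := lt_of_mul_lt_mul_left h3 h4.le
  linarith

end Pool.Agent.Work.MP_d899bc_co.Half
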